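import Pool.Agent.Helper29.AP.Defs

/-!
AP-7: groups with all subgroups finitely generated.
-/

set_option autoImplicit false

namespace Pool.Agent.AP

theorem fg_of_ker {G H : Type} [Group G] [Group H] (f : G →* H)
    (h1 : ∀ K : Subgroup G, K ≤ f.ker → K.FG) (h2 : ∀ K : Subgroup H, K.FG) (K : Subgroup G) :
    K.FG := by
  classical
  obtain ⟨S, hS⟩ := h1 (K ⊓ f.ker) inf_le_right
  obtain ⟨T, hT⟩ := h2 (K.map f)
  have hT' : ∀ t ∈ T, ∃ k ∈ K, f k = t := by
    intro t ht
    have : t ∈ K.map f := by rw [← hT]; exact Subgroup.subset_closure ht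
    exact this
  choose! g hg hg' using hT'
  refine ⟨S ∪ T.image g, le_antisymm ?_ ?_⟩
  · rw [Subgroup.closure_le]
    intro x hx
    rw [Finset.coe_union, Finset.coe_image] at hx
    rcases hx with hx | ⟨t, ht, rfl⟩
    · have : x ∈ K ⊓ f.ker := by rw [← hS]; exact Subgroup.subset_closure hx
      exact this.1
    · exact hg t ht
  · intro x hx
    rw [Finset.coe_union, Finset.coe_image]
    have hmap : K.map f ≤ (Subgroup.closure (g '' (T : Set H))).map f := by
      rw [← hT, Subgroup.closure_le]
      intro t ht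
      exact ⟨g t, Subgroup.subset_closure ⟨t, ht, rfl⟩, hg' t ht⟩
    obtain ⟨y, hy, hyx⟩ := hmap ⟨x, hx, rfl⟩
    have hyK : y ∈ K := by
      have : Subgroup.closure (g '' (T : Set H)) ≤ K := by
        rw [Subgroup.closure_le]
        rintro _ ⟨t, ht, rfl⟩
        exact hg t ht
      exact this hy
    have hz : y⁻¹ * x ∈ Subgroup.closure (S : Set G) := by
      rw [hS]
      refine ⟨K.mul_mem (K.inv_mem hyK) hx, ?_⟩
      show f (y⁻¹ * x) = 1
      rw [map_mul, map_inv, hyx, inv_mul_cancel]
    have : x = y * (y⁻¹ * x) := by group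
    rw [this]
    exact Subgroup.mul_mem _ (Subgroup.closure_mono Set.subset_union_right hy)
      (Subgroup.closure_mono Set.subset_union_left hz)

theorem fg_of_comm {G : Type} [CommGroup G] [Group.FG G] (K : Subgroup G) : K.FG := by
  have : Module.Finite ℤ (Additive G) := Module.Finite.iff_addGroup_fg.2 inferInstance
  have h := IsNoetherian.noetherian (R := ℤ) (M := Additive G)
    (AddSubgroup.toIntSubmodule K.toAddSubgroup)
  rw [Subgroup.fg_iff_add_fg]
  rw [Submodule.fg_iff_addSubgroup_fg] at h
  exact h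

end Pool.Agent.AP
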